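import Pool.Agent.helper47.AKL.SpecK
import Pool.Agent.helper63.TI.SpecA

/-!
Project A+ (MP_3703a7_ag), row ta:KLO: the local hypothesis from an Eisenstein prime
-/

set_option autoImplicit false

namespace Pool.Agent.AKL

open Polynomial Pool.Agent.HC Pool.Agent.HC.SJ Pool.Agent.SJ Pool.Agent.GJ Pool.Agent.TK Pool.Agent.TD
open Pool.Agent.FJ (VT Om chiO Jac Tup)
open Pool.Agent.AQ (PF galP eg Blk)
open Pool.Agent.TQ (VA galA zA)
open Pool.Agent.TI (TZ WA bs ES WC PL1_stmt PL2_stmt)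
open scoped TensorProduct

noncomputable section

theorem KLO (hWCI : Pool.Agent.TI.WCI_stmt) : KLO_stmt := by
  intro l p _ _ hl hlp D hAll i hpr hgen hμ F u hFm hFE hFe q _ hqp
  obtain ⟨τ, φ, hτ, hφ, hWC, h⟩ := hWCI l p hl hlp D hAll i hpr hgen hμ F u hFm hFE hFe
  exact ⟨hpr, τ, φ, hτ, hφ, hWC, fun s hs ζ hζ r h0 hrl => h q hqp ζ hζ s hs r h0 hrl⟩

end

end Pool.Agent.AKL
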